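import Pool.Agent.H77.PG.FlatPatch
import Pool.Agent.H59.Zar.Om

/-!
# Isometric parametrisations if all Jacobi fields are linear
-/

set_option autoImplicit false

open scoped InnerProductSpace Topology ContDiff
open Set Filter

namespace Pool.Agent.H59.S5

open Pool.Agent.H91.GE Pool.Agent.H59.LV Pool.Agent.H59.Zar
open Pool.Agent.H59.ND (UT)

variable {E F : Type*} [NormedAddCommGroup E] [InnerProductSpace ℝ E] [FiniteDimensional ℝ E]
  [NormedAddCommGroup F] [InnerProductSpace ℝ F] [FiniteDimensional ℝ F]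
  {S : Set E} {A : E × E → E} {K K₂ : NNReal} {Φ : ℝ → E × E → E × E} {n : ℕ}

/-- All Jacobi fields which vanish at `0` and are perpendicular to the geodesic have linear
length. -/
def Lin (Φ : ℝ → E × E → E × E) (S : Set E) : Prop :=
  ∀ w ∈ UT S, ∀ ξ ∈ ZT S w.1, ⟪w.2, ξ⟫_ℝ = 0 → ∀ t : ℝ,
    ‖(fderiv ℝ (Φ t) w (0, ξ)).1‖ = |t| * ‖ξ‖

/-- **The exponential map is a local isometry** if all Jacobi fields are linear. -/
theorem exists_param (h : GFlow F S A K K₂ Φ)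
    (hdim : Module.finrank ℝ E = Module.finrank ℝ F + n) (hlin : Lin Φ S) {X : E} (hX : X ∈ S) :
    ∃ φ : EuclideanSpace ℝ (Fin n) → E, ContDiff ℝ ∞ φ ∧ (∀ w, φ w ∈ S) ∧
      (∃ W : Set E, IsOpen W ∧ X ∈ W ∧ S ∩ W ⊆ range φ) ∧
      ∀ u a b, ⟪fderiv ℝ φ u a, fderiv ℝ φ u b⟫_ℝ = ⟪a, b⟫_ℝ := by
  obtain ⟨U, hU, f, hf⟩ := h.sub X hX
  have hfr : Module.finrank ℝ (ZT S X) = n := finrank_TS hdim h.sub hX
  let e : EuclideanSpace ℝ (Fin n) ≃ₗᵢ[ℝ] ZT S X :=
    ((stdOrthonormalBasis ℝ (ZT S X)).reindex (finCongr hfr)).repr.symm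
  let L : EuclideanSpace ℝ (Fin n) →L[ℝ] E :=
    (ZT S X).subtypeL ∘L (e.toContinuousLinearEquiv : EuclideanSpace ℝ (Fin n) →L[ℝ] ZT S X)
  have hL : ∀ w, L w = (e w : E) := fun w => rfl
  have hLZ : ∀ w, L w ∈ ZT S X := fun w => (e w).2
  have hLT : ∀ w, (X, L w) ∈ TSet S := fun w => (mem_TS h.sub hX).1 (hLZ w)
  have hLi : ∀ a b, ⟪L a, L b⟫_ℝ = ⟪a, b⟫_ℝ := by
    intro a b
    have h1 : ⟪L a, L b⟫_ℝ = ⟪e a, e b⟫_ℝ := rfl
    rw [h1, e.inner_map_map]
  have hLn : ∀ a, ‖L a‖ = ‖a‖ := by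
    intro a
    have h1 := hLi a a
    rw [real_inner_self_eq_norm_sq, real_inner_self_eq_norm_sq] at h1
    exact (sq_eq_sq₀ (norm_nonneg _) (norm_nonneg _)).1 h1
  set φ : EuclideanSpace ℝ (Fin n) → E := fun w => Geo Φ X (L w) 1 with hφ
  have hφc : ContDiff ℝ ∞ φ := by
    rw [contDiff_iff_contDiffAt]
    intro w
    have h1 := Pool.Agent.H77.PG.contDiffAt_Geo h (q := X) (u := L) (b := w)
      L.contDiff.contDiffAt hLT 1
    have h2 : ContDiffAt ℝ ∞ (fun w : EuclideanSpace ℝ (Fin n) => (w, (1 : ℝ))) w :=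
      contDiffAt_id.prodMk contDiffAt_const
    exact ContDiffAt.comp w (g := fun x : EuclideanSpace ℝ (Fin n) × ℝ => Geo Φ X (L x.1) x.2)
      (f := fun w : EuclideanSpace ℝ (Fin n) => (w, (1 : ℝ))) h1 h2
  have hφS : ∀ w, φ w ∈ S := fun w => (h.isGeo_Geo (hLT w)).1.mem 1
  have hφd : ∀ w a, HasDerivAt (fun s : ℝ => φ (w + s • a)) (fderiv ℝ φ w a) 0 := by
    intro w a
    have h1 : HasDerivAt (fun s : ℝ => w + s • a) a 0 := by
      simpa using ((hasDerivAt_id (0 : ℝ)).smul_const a).const_add w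
    have h2 : HasFDerivAt φ (fderiv ℝ φ w) ((fun s : ℝ => w + s • a) 0) := by
      show HasFDerivAt φ (fderiv ℝ φ w) (w + (0 : ℝ) • a)
      rw [zero_smul, add_zero]
      exact (hφc.differentiable (by simp) w).hasFDerivAt
    exact HasFDerivAt.comp_hasDerivAt (l := φ) (f := fun s : ℝ => w + s • a) (0 : ℝ) h2 h1
  -- norms
  have hne : ∀ w a, w ≠ 0 → ⟪fderiv ℝ φ w a, fderiv ℝ φ w a⟫_ℝ = ⟪a, a⟫_ℝ := by
    intro w a hw
    set M : ℝ := ‖w‖ with hM
    have hM0 : 0 < M := norm_pos_iff.2 hw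
    set v : E × E := (X, M⁻¹ • L w) with hv
    have hvT : v ∈ TSet S := scale_TSet (hLT w) h.sub M⁻¹
    have hvn : ‖M⁻¹ • L w‖ = 1 := by
      rw [norm_smul, norm_inv, Real.norm_of_nonneg hM0.le, hLn, ← hM, inv_mul_cancel₀ hM0.ne']
    have hvU : v ∈ UT S := ⟨hvT, hvn⟩
    have hΦd : DifferentiableAt ℝ (Φ M) v := by
      have h1 : ContDiff ℝ ∞ (fun x : E × E => Φ M x) :=
        h.contDiff.comp (contDiff_const.prodMk contDiff_id)
      exact h1.differentiable (by simp) v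
    -- the derivative of `φ` in terms of the flow
    have hder : ∀ b, fderiv ℝ φ w b = (fderiv ℝ (Φ M) v (0, M⁻¹ • L b)).1 := by
      intro b
      have h1 := hφd w b
      have h2 : HasDerivAt (fun s : ℝ => ((X, M⁻¹ • L (w + s • b)) : E × E))
          (0, M⁻¹ • L b) 0 := by
        have h3 : HasDerivAt (fun s : ℝ => M⁻¹ • L (w + s • b)) (M⁻¹ • L b) 0 := by
          have h4 : HasDerivAt (fun s : ℝ => w + s • b) b 0 := by
            simpa using ((hasDerivAt_id (0 : ℝ)).smul_const b).const_add w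
          exact (HasFDerivAt.comp_hasDerivAt (l := L) (f := fun s : ℝ => w + s • b) (0 : ℝ)
            L.hasFDerivAt h4).const_smul M⁻¹
        exact (hasDerivAt_const (0 : ℝ) X).prodMk h3
      have h5 : HasFDerivAt (fun x => (Φ M x).1) ((ContinuousLinearMap.fst ℝ E E).comp
          (fderiv ℝ (Φ M) v)) ((fun s : ℝ => ((X, M⁻¹ • L (w + s • b)) : E × E)) 0) := by
        have e1 : ((fun s : ℝ => ((X, M⁻¹ • L (w + s • b)) : E × E)) 0) = v := by
          show (X, M⁻¹ • L (w + (0 : ℝ) • b)) = v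
          rw [zero_smul, add_zero]
        rw [e1]
        exact HasFDerivAt.comp v (g := Prod.fst) hasFDerivAt_fst hΦd.hasFDerivAt
      have h6 : HasDerivAt (fun s : ℝ => (Φ M (X, M⁻¹ • L (w + s • b))).1)
          ((fderiv ℝ (Φ M) v (0, M⁻¹ • L b)).1) 0 :=
        HasFDerivAt.comp_hasDerivAt (l := fun x : E × E => (Φ M x).1)
          (f := fun s : ℝ => ((X, M⁻¹ • L (w + s • b)) : E × E)) (0 : ℝ) h5 h2
      have hev : (fun s : ℝ => φ (w + s • b)) =ᶠ[𝓝 0]
          fun s => (Φ M (X, M⁻¹ • L (w + s • b))).1 := by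
        have hc : Continuous fun s : ℝ => ‖L (w + s • b)‖ := by fun_prop
        have h7 : ∀ᶠ s in 𝓝 (0 : ℝ), ‖L (w + s • b)‖ < 2 * M := by
          apply hc.continuousAt.eventually_lt_const
          show ‖L (w + (0 : ℝ) • b)‖ < 2 * M
          rw [zero_smul, add_zero, hLn, ← hM]
          linarith
        filter_upwards [h7] with s hs
        have h8 := (h.Geo_eq (hLT (w + s • b)) hM0 hs.le 1).1
        rw [mul_one] at h8
        exact h8
      exact h1.unique (h6.congr_of_eventuallyEq hev)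
    -- the radial derivative
    have hrad : fderiv ℝ φ w w = M • (Φ M v).2 := by
      have h1 := hφd w w
      have h2 : (fun s : ℝ => φ (w + s • w)) = fun s => Geo Φ X (L w) (1 + s) := by
        funext s
        show Geo Φ X (L (w + s • w)) 1 = _
        have e1 : L (w + s • w) = (1 + s) • L w := by
          rw [map_add, map_smul, add_smul, one_smul]
        rw [e1, h.Geo_smul (hLT w), mul_one]
      rw [h2] at h1
      have h3 : HasDerivAt (fun s : ℝ => Geo Φ X (L w) (1 + s)) (deriv (Geo Φ X (L w)) 1) 0 := by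
        have h4 : HasDerivAt (fun s : ℝ => 1 + s) 1 0 := by
          simpa using (hasDerivAt_id (0 : ℝ)).const_add 1
        have h5 : HasDerivAt (Geo Φ X (L w)) (deriv (Geo Φ X (L w)) 1)
            ((fun s : ℝ => 1 + s) 0) := by
          show HasDerivAt _ _ (1 + 0)
          rw [add_zero]
          exact (h.isGeo_Geo (hLT w)).1.hasDerivAt 1
        have h6 := h5.scomp (0 : ℝ) h4
        rw [one_smul] at h6
        exact h6
      rw [h1.unique h3, (h.Geo_eq (hLT w) hM0 (by rw [hLn]; linarith) 1).2, mul_one]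
    -- decomposition
    set c : ℝ := (M ^ 2)⁻¹ * ⟪w, a⟫_ℝ with hc
    set a' := a - c • w with ha'
    have hww : ⟪w, w⟫_ℝ = M ^ 2 := real_inner_self_eq_norm_sq w
    have hwa' : ⟪w, a'⟫_ℝ = 0 := by
      rw [ha', inner_sub_right, real_inner_smul_right, hww, hc]
      field_simp
      ring
    have hv2 : ⟪v.2, M⁻¹ • L a'⟫_ℝ = 0 := by
      show ⟪M⁻¹ • L w, M⁻¹ • L a'⟫_ℝ = 0
      rw [real_inner_smul_left, real_inner_smul_right, hLi, hwa', mul_zero, mul_zero]
    have hξ : M⁻¹ • L a' ∈ ZT S v.1 := (ZT S X).smul_mem _ (hLZ a')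
    have hver : ((0 : E), M⁻¹ • L a') ∈ ZT (UT S) v := (ver_mem_iff h.sub hvU).2 ⟨hξ, hv2⟩
    have hn' : ‖fderiv ℝ φ w a'‖ = ‖a'‖ := by
      rw [hder, hlin v hvU _ hξ hv2 M, abs_of_pos hM0, norm_smul, norm_inv,
        Real.norm_of_nonneg hM0.le, hLn, ← mul_assoc, mul_inv_cancel₀ hM0.ne', one_mul]
    have horth : ⟪fderiv ℝ φ w w, fderiv ℝ φ w a'⟫_ℝ = 0 := by
      rw [hrad, hder, real_inner_smul_left, theta_flow h hvU hver]
      simp
    have hradn : ⟪fderiv ℝ φ w w, fderiv ℝ φ w w⟫_ℝ = M ^ 2 := by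
      have h1 := (h.mem hvT (by rw [show v.2 = M⁻¹ • L w from rfl, hvn]; norm_num) M).2
      rw [hrad, real_inner_self_eq_norm_sq, norm_smul, h1, show v.2 = M⁻¹ • L w from rfl, hvn,
        Real.norm_of_nonneg hM0.le, mul_one]
    have ha : a = a' + c • w := by rw [ha']; abel
    have e1 : fderiv ℝ φ w a = fderiv ℝ φ w a' + c • fderiv ℝ φ w w := by
      conv_lhs => rw [ha]
      rw [map_add, map_smul]
    have e2 : ⟪fderiv ℝ φ w a', fderiv ℝ φ w w⟫_ℝ = 0 := by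
      rw [real_inner_comm]; exact horth
    have e3 : ⟪a', w⟫_ℝ = 0 := by
      rw [real_inner_comm]; exact hwa'
    have e4 : ⟪fderiv ℝ φ w a', fderiv ℝ φ w a'⟫_ℝ = ⟪a', a'⟫_ℝ := by
      rw [real_inner_self_eq_norm_sq, real_inner_self_eq_norm_sq, hn']
    rw [e1]
    conv_rhs => rw [ha]
    simp only [inner_add_left, inner_add_right, real_inner_smul_left, real_inner_smul_right]
    rw [e2, horth, hradn, e4, e3, hwa', hww]
  have hzero : ∀ a, fderiv ℝ φ 0 a = L a := by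
    intro a
    have h1 := hφd 0 a
    have h2 : (fun s : ℝ => φ (0 + s • a)) = Geo Φ X (L a) := by
      funext s
      show Geo Φ X (L (0 + s • a)) 1 = _
      rw [zero_add, map_smul, h.Geo_smul (hLT a), mul_one]
    rw [h2] at h1
    rw [← h1.deriv]
    exact (h.isGeo_Geo (hLT a)).2.2
  have hnorm : ∀ w a, ⟪fderiv ℝ φ w a, fderiv ℝ φ w a⟫_ℝ = ⟪a, a⟫_ℝ := by
    intro w a
    by_cases hw : w = 0
    · rw [hw, hzero, hLi]
    · exact hne w a hw
  refine ⟨φ, hφc, hφS, ?_, ?_⟩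
  · obtain ⟨Ω, ψ, P, W', hc, hW'⟩ := exists_patch (N := EuclideanSpace ℝ (Fin n))
      (by rw [hdim, finrank_euclideanSpace_fin]) hf hU
    have hPL : Function.Injective (P ∘L fderiv ℝ φ 0) := by
      intro a b hab
      have h1 : P (L a) = P (L b) := by
        have h2 : P (fderiv ℝ φ 0 a) = P (fderiv ℝ φ 0 b) := hab
        rwa [hzero, hzero] at h2
      have h3 : L a = L b := by
        rw [← (hc.of_TSet hW' (hLT a)).2.2, ← (hc.of_TSet hW' (hLT b)).2.2, h1]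
      have h4 : ⟪a - b, a - b⟫_ℝ = 0 := by
        rw [← hLi, map_sub, h3, sub_self, inner_zero_left]
      exact sub_eq_zero.1 (inner_self_eq_zero.1 h4)
    have hPLs : Function.Surjective (P ∘L fderiv ℝ φ 0) :=
      (LinearMap.injective_iff_surjective
        (f := (P ∘L fderiv ℝ φ 0).toLinearMap)).1 hPL
    have hstr : HasStrictFDerivAt (fun w => P (φ w)) (P ∘L fderiv ℝ φ 0) 0 := by
      have h1 : HasStrictFDerivAt φ (fderiv ℝ φ 0) 0 :=
        hφc.contDiffAt.hasStrictFDerivAt (by simp)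
      exact P.hasStrictFDerivAt.comp (0 : EuclideanSpace ℝ (Fin n)) h1
    have hmap : map (fun w => P (φ w)) (𝓝 0) = 𝓝 (P (φ 0)) :=
      hstr.map_nhds_eq_of_surj (LinearMap.range_eq_top.2 hPLs)
    have hφ0 : φ 0 = X := by
      show Geo Φ X (L 0) 1 = X
      have h1 : L 0 = (0 : ℝ) • L 0 := by rw [map_zero, smul_zero]
      rw [h1, h.Geo_smul (hLT 0), zero_mul]
      exact (h.isGeo_Geo (hLT 0)).2.1
    have hN : {w | φ w ∈ W'} ∈ 𝓝 (0 : EuclideanSpace ℝ (Fin n)) :=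
      hφc.continuous.continuousAt.preimage_mem_nhds (by rw [hφ0]; exact hc.V_open.mem_nhds hW')
    have hN' : (fun w => P (φ w)) '' {w | φ w ∈ W'} ∈ 𝓝 (P X) := by
      rw [← hφ0, ← hmap]
      exact image_mem_map hN
    have hN2 : {q | P q ∈ (fun w => P (φ w)) '' {w | φ w ∈ W'}} ∩ W' ∈ 𝓝 X :=
      inter_mem (P.continuous.continuousAt.preimage_mem_nhds hN') (hc.V_open.mem_nhds hW')
    obtain ⟨W, hWs, hWo, hXW⟩ := mem_nhds_iff.1 hN2
    refine ⟨W, hWo, hXW, ?_⟩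
    rintro q ⟨hqS, hqW⟩
    obtain ⟨⟨w, hw, hwq⟩, hqW'⟩ := hWs hqW
    refine ⟨w, ?_⟩
    have h1 := (hc.right q hqS hqW').2
    have h2 := (hc.right (φ w) (hφS w) hw).2
    rw [← h1, ← h2]
    exact congrArg ψ hwq
  · intro u a b
    have h1 := hnorm u (a + b)
    have h2 := hnorm u a
    have h3 := hnorm u b
    rw [map_add] at h1
    simp only [inner_add_left, inner_add_right] at h1
    have h4 : ⟪fderiv ℝ φ u b, fderiv ℝ φ u a⟫_ℝ = ⟪fderiv ℝ φ u a, fderiv ℝ φ u b⟫_ℝ :=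
      real_inner_comm _ _
    have h5 : ⟪b, a⟫_ℝ = ⟪a, b⟫_ℝ := real_inner_comm _ _
    rw [h4, h5] at h1
    linarith

end Pool.Agent.H59.S5
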