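import Pool.Agent.H59.S5.Param
import Pool.Agent.H91.GS.Flat

/-!
# Assembly of the characterisation of secure manifolds
-/

set_option autoImplicit false

open scoped InnerProductSpace Topology ContDiff
open Set Filter

namespace Pool.Agent.H59.S5

open Pool.Agent.H91.GE Pool.Agent.H59.LV Pool.Agent.H59.Zar
open Pool.Agent.H59.ND (UT)

section

variable {E F : Type*} [NormedAddCommGroup E] [InnerProductSpace ℝ E] [FiniteDimensional ℝ E]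
  [NormedAddCommGroup F] [InnerProductSpace ℝ F] [FiniteDimensional ℝ F]
  {S : Set E} {A : E × E → E} {K K₂ : NNReal} {Φ : ℝ → E × E → E × E} {n : ℕ}

/-- In dimensions `0` and `1` there is nothing to prove. -/
theorem lin_of_le_one (h : GFlow F S A K K₂ Φ)
    (hdim : Module.finrank ℝ E = Module.finrank ℝ F + n) (hn : n ≤ 1) : Lin Φ S := by
  intro w hw ξ hξ h0 t
  have hx := fst_mem_TSet hw.1
  have hfr : Module.finrank ℝ (ZT S w.1) ≤ 1 := by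
    rw [finrank_TS hdim h.sub hx]; exact hn
  have hw2 : w.2 ∈ ZT S w.1 := snd_mem_TS h.sub hw
  have hw0 : (⟨w.2, hw2⟩ : ZT S w.1) ≠ 0 := by
    intro h1
    have h2 : w.2 = 0 := congrArg Subtype.val h1
    have h3 := hw.2
    rw [h2, norm_zero] at h3
    exact zero_ne_one h3
  obtain ⟨v, hv⟩ := finrank_le_one_iff.1 hfr
  obtain ⟨a, ha⟩ := hv ⟨w.2, hw2⟩
  obtain ⟨b, hb⟩ := hv ⟨ξ, hξ⟩
  have ha0 : a ≠ 0 := by
    intro h1
    rw [h1, zero_smul] at ha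
    exact hw0 ha.symm
  have hξw : ξ = (b * a⁻¹) • w.2 := by
    have h1 : (⟨ξ, hξ⟩ : ZT S w.1) = (b * a⁻¹) • ⟨w.2, hw2⟩ := by
      rw [← ha, ← hb, smul_smul, mul_assoc, inv_mul_cancel₀ ha0, mul_one]
    exact congrArg Subtype.val h1
  have h2 : ξ = 0 := by
    rw [hξw, real_inner_smul_right, real_inner_self_eq_norm_sq, hw.2] at h0
    have h3 : b * a⁻¹ = 0 := by linarith
    rw [hξw, h3, zero_smul]
  rw [h2, norm_zero, mul_zero]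
  have h3 : ((0 : E), (0 : E)) = 0 := rfl
  rw [h3, map_zero]
  exact norm_zero

end

/-- Section 7. -/
def Sec7 : Prop :=
  ∀ (n k : ℕ) (S : Set (EuclideanSpace ℝ (Fin (n + k))))
    (A : EuclideanSpace ℝ (Fin (n + k)) × EuclideanSpace ℝ (Fin (n + k)) →
      EuclideanSpace ℝ (Fin (n + k))) (K K₂ : NNReal)
    (Φ : ℝ → EuclideanSpace ℝ (Fin (n + k)) × EuclideanSpace ℝ (Fin (n + k)) →
      EuclideanSpace ℝ (Fin (n + k)) × EuclideanSpace ℝ (Fin (n + k))),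
    3 ≤ n → GFlow (EuclideanSpace ℝ (Fin k)) S A K K₂ Φ → Secure S → Lin Φ S

/-- Flatness. -/
def FlatP (n k : ℕ) (S : Set (EuclideanSpace ℝ (Fin (n + k)))) : Prop :=
  ∀ p ∈ S, ∃ V : Set (EuclideanSpace ℝ (Fin n)), IsOpen V ∧
        ∃ φ : EuclideanSpace ℝ (Fin n) → EuclideanSpace ℝ (Fin (n + k)),
          ContDiffOn ℝ ((⊤ : ℕ∞) : WithTop ℕ∞) φ V ∧ φ '' V ⊆ S ∧
          (∃ W : Set (EuclideanSpace ℝ (Fin (n + k))), IsOpen W ∧ p ∈ W ∧ S ∩ W ⊆ φ '' V) ∧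
          ∀ u ∈ V, ∀ a b : EuclideanSpace ℝ (Fin n),
            ⟪fderiv ℝ φ u a, fderiv ℝ φ u b⟫_ℝ = ⟪a, b⟫_ℝ

/-- Section 8. -/
def Sec8 : Prop :=
  ∀ (n k : ℕ) (S : Set (EuclideanSpace ℝ (Fin (n + k)))), IsCompact S →
    IsSub (EuclideanSpace ℝ (Fin k)) S → FlatP n k S → Secure S

theorem flat_of_secure (h7 : Sec7) (n k : ℕ) (S : Set (EuclideanSpace ℝ (Fin (n + k))))
    (hS : IsCompact S) (hsub : IsSub (EuclideanSpace ℝ (Fin k)) S) (hsec : Secure S) :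
    FlatP n k S := by
  have hdim : Module.finrank ℝ (EuclideanSpace ℝ (Fin (n + k)))
      = Module.finrank ℝ (EuclideanSpace ℝ (Fin k)) + n := by
    rw [finrank_euclideanSpace_fin, finrank_euclideanSpace_fin, add_comm]
  intro p hp
  have key : ∃ φ : EuclideanSpace ℝ (Fin n) → EuclideanSpace ℝ (Fin (n + k)), ContDiff ℝ ∞ φ ∧
      (∀ w, φ w ∈ S) ∧
      (∃ W : Set (EuclideanSpace ℝ (Fin (n + k))), IsOpen W ∧ p ∈ W ∧ S ∩ W ⊆ range φ) ∧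
      ∀ u a b, ⟪fderiv ℝ φ u a, fderiv ℝ φ u b⟫_ℝ = ⟪a, b⟫_ℝ := by
    obtain ⟨A, K, K₂, Φ, h⟩ := exists_GFlow hS hsub
    rcases Nat.lt_or_ge n 2 with h1 | h1
    · exact exists_param h hdim (lin_of_le_one h hdim (by omega)) hp
    · rcases Nat.lt_or_ge n 3 with h2 | h2
      · obtain rfl : n = 2 := by omega
        exact secure_flat hdim hS hsub hsec hp
      · exact exists_param h hdim (h7 n k S A K K₂ Φ h2 h hsec) hp
  obtain ⟨φ, h1, h2, ⟨W, h3, h4, h5⟩, h6⟩ := key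
  refine ⟨univ, isOpen_univ, φ, h1.contDiffOn, ?_, ⟨W, h3, h4, ?_⟩, fun u _ => h6 u⟩
  · rintro _ ⟨w, -, rfl⟩
    exact h2 w
  · rw [image_univ]; exact h5

/-- The frozen statement from sections 7 and 8. -/
theorem final (h7 : Sec7) (h8 : Sec8) :
  ∀ (n k : ℕ) (S : Set (EuclideanSpace ℝ (Fin (n + k)))),
    IsCompact S →
    (∀ p ∈ S, ∃ U : Set (EuclideanSpace ℝ (Fin (n + k))), IsOpen U ∧ p ∈ U ∧
      ∃ f : EuclideanSpace ℝ (Fin (n + k)) → EuclideanSpace ℝ (Fin k),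
        ContDiffOn ℝ ((⊤ : ℕ∞) : WithTop ℕ∞) f U ∧
        (∀ q ∈ U, Function.Surjective ⇑(fderiv ℝ f q)) ∧
        S ∩ U = U ∩ f ⁻¹' {0}) →
    ((∀ x ∈ S, ∀ y ∈ S, ∃ B : Finset (EuclideanSpace ℝ (Fin (n + k))),
        (↑B : Set (EuclideanSpace ℝ (Fin (n + k)))) ⊆ S ∧ x ∉ B ∧ y ∉ B ∧
        ∀ γ : ℝ → EuclideanSpace ℝ (Fin (n + k)),
          ContDiff ℝ ((⊤ : ℕ∞) : WithTop ℕ∞) γ →
          (∀ t, γ t ∈ S) →
          (∀ t : ℝ, ∀ c : ℝ → EuclideanSpace ℝ (Fin (n + k)), ContDiff ℝ 1 c →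
              (∀ s, c s ∈ S) → c 0 = γ t →
              ⟪deriv (deriv γ) t, deriv c 0⟫_ℝ = 0) →
          γ 0 = x → γ 1 = y → deriv γ 0 ≠ 0 →
          ∃ t ∈ Set.Ioo (0 : ℝ) 1, γ t ∈ B)
      ↔
     (∀ p ∈ S, ∃ V : Set (EuclideanSpace ℝ (Fin n)), IsOpen V ∧
        ∃ φ : EuclideanSpace ℝ (Fin n) → EuclideanSpace ℝ (Fin (n + k)),
          ContDiffOn ℝ ((⊤ : ℕ∞) : WithTop ℕ∞) φ V ∧ φ '' V ⊆ S ∧
          (∃ W : Set (EuclideanSpace ℝ (Fin (n + k))), IsOpen W ∧ p ∈ W ∧ S ∩ W ⊆ φ '' V) ∧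
          ∀ u ∈ V, ∀ a b : EuclideanSpace ℝ (Fin n),
            ⟪fderiv ℝ φ u a, fderiv ℝ φ u b⟫_ℝ = ⟪a, b⟫_ℝ)) := by
  intro n k S hS hloc
  have hsub : IsSub (EuclideanSpace ℝ (Fin k)) S := by
    intro p hp
    obtain ⟨U, hU, hpU, f, hf, hsurj, heq⟩ := hloc p hp
    exact ⟨U, hpU, f, ⟨hU, hf, hsurj, heq⟩⟩
  constructor
  · intro hsec
    refine flat_of_secure h7 n k S hS hsub ?_
    intro x hx y hy
    obtain ⟨B, hB, hxB, hyB, h⟩ := hsec x hx y hy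
    exact ⟨B, hB, hxB, hyB, fun γ hγ h0 h1 hd => h γ hγ.smooth hγ.mem hγ.acc h0 h1 hd⟩
  · intro hflat x hx y hy
    obtain ⟨B, hB, hxB, hyB, h⟩ := h8 n k S hS hsub hflat x hx y hy
    exact ⟨B, hB, hxB, hyB, fun γ hγ hm ha h0 h1 hd => h γ ⟨hγ, hm, ha⟩ h0 h1 hd⟩

end Pool.Agent.H59.S5
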