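import Pool.Agent.H59.S5.Final
import Pool.Agent.H62.FS.Main

/-!
# The frozen statement from section 7 alone
-/

set_option autoImplicit false

open scoped InnerProductSpace Topology ContDiff
open Set Filter

namespace Pool.Agent.H59.S5

open Pool.Agent.H91.GE

theorem sec8 : Sec8 := by
  intro n k S hS hsub hfl
  have hdim : Module.finrank ℝ (EuclideanSpace ℝ (Fin (n + k)))
      = Module.finrank ℝ (EuclideanSpace ℝ (Fin n))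
        + Module.finrank ℝ (EuclideanSpace ℝ (Fin k)) := by
    simp
  have hfl' : Pool.Agent.H62.FS.Flat (EuclideanSpace ℝ (Fin n)) S := by
    intro p hp
    obtain ⟨V, hV, φ, h1, h2, ⟨W, hW, hpW, hWV⟩, h3⟩ := hfl p hp
    obtain ⟨u, hu, hup⟩ := hWV ⟨hp, hpW⟩
    exact ⟨V, φ, u, ⟨hV, h1, fun v hv => h2 ⟨v, hv, rfl⟩, h3⟩, hu, hup⟩
  exact Pool.Agent.H62.FS.secure_of_flat hdim hS hsub hfl'

/-- The frozen statement from section 7. -/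
theorem final7 (h7 : Sec7) :
  ∀ (n k : ℕ) (S : Set (EuclideanSpace ℝ (Fin (n + k)))),
    IsCompact S →
    (∀ p ∈ S, ∃ U : Set (EuclideanSpace ℝ (Fin (n + k))), IsOpen U ∧ p ∈ U ∧
      ∃ f : EuclideanSpace ℝ (Fin (n + k)) → EuclideanSpace ℝ (Fin k),
        ContDiffOn ℝ ((⊤ : ℕ∞) : WithTop ℕ∞) f U ∧
        (∀ q ∈ U, Function.Surjective ⇑(fderiv ℝ f q)) ∧
        S ∩ U = U ∩ f ⁻¹' {0}) →
    ((∀ x ∈ S, ∀ y ∈ S, ∃ B : Finset (EuclideanSpace ℝ (Fin (n + k))),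
        (↑B : Set (EuclideanSpace ℝ (Fin (n + k)))) ⊆ S ∧ x ∉ B ∧ y ∉ B ∧
        ∀ γ : ℝ → EuclideanSpace ℝ (Fin (n + k)),
          ContDiff ℝ ((⊤ : ℕ∞) : WithTop ℕ∞) γ →
          (∀ t, γ t ∈ S) →
          (∀ t : ℝ, ∀ c : ℝ → EuclideanSpace ℝ (Fin (n + k)), ContDiff ℝ 1 c →
              (∀ s, c s ∈ S) → c 0 = γ t →
              ⟪deriv (deriv γ) t, deriv c 0⟫_ℝ = 0) →
          γ 0 = x → γ 1 = y → deriv γ 0 ≠ 0 →
          ∃ t ∈ Set.Ioo (0 : ℝ) 1, γ t ∈ B)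
      ↔
     (∀ p ∈ S, ∃ V : Set (EuclideanSpace ℝ (Fin n)), IsOpen V ∧
        ∃ φ : EuclideanSpace ℝ (Fin n) → EuclideanSpace ℝ (Fin (n + k)),
          ContDiffOn ℝ ((⊤ : ℕ∞) : WithTop ℕ∞) φ V ∧ φ '' V ⊆ S ∧
          (∃ W : Set (EuclideanSpace ℝ (Fin (n + k))), IsOpen W ∧ p ∈ W ∧ S ∩ W ⊆ φ '' V) ∧
          ∀ u ∈ V, ∀ a b : EuclideanSpace ℝ (Fin n),
            ⟪fderiv ℝ φ u a, fderiv ℝ φ u b⟫_ℝ = ⟪a, b⟫_ℝ)) :=
  final h7 sec8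

end Pool.Agent.H59.S5
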