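import Pool.Agent.H59.S5.Frozen
import Pool.Agent.H77.SN.Sec7

/-!
# Section 7 in the form used by the assembly
-/

set_option autoImplicit false

open scoped InnerProductSpace Topology ContDiff
open Set Filter

namespace Pool.Agent.H59.S5

open Pool.Agent.H91.GE

theorem sec7 : Sec7 := by
  intro n k S A K K₂ Φ hn h hsec w hw ξ hξ h0 t
  have hdim : Module.finrank ℝ (EuclideanSpace ℝ (Fin (n + k)))
      = Module.finrank ℝ (EuclideanSpace ℝ (Fin k)) + n := by
    rw [finrank_euclideanSpace_fin, finrank_euclideanSpace_fin, add_comm]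
  exact Pool.Agent.H77.SN.flat_jac h hdim hn hsec hw t hξ (by rw [real_inner_comm]; exact h0)

end Pool.Agent.H59.S5
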